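import Mathlib
import Pool.Agent.Q157.DD.Ds2
import Pool.Agent.Q157.SC.CSeven
import Pool.Agent.Q130.SC.C8

/-!
# Project DD (helper157), jobs d8 and d6
-/

set_option autoImplicit false

namespace Pool.Agent.Q154.DD

open Equiv Pool.Agent.Q157.SC Pool.Agent.Q157.DD Pool.Agent.Q130.SC8

/-! ### `c8` -/

/-- the four points -/
def Q8 (x : V4) : Prop := x = c ∨ x = c + b ∨ x = d ∨ x = d + a

/-- the label of the pair -/
def t8 (x : V4) : Bool := decide (x = c ∨ x = c + b)

set_option maxRecDepth 100000 in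
set_option synthInstance.maxSize 4000 in
theorem factT : ∀ x y : V4, (x = c ∨ x = c + b ∨ x = d ∨ x = d + a) →
    (y = c ∨ y = c + b ∨ y = d ∨ y = d + a) → x ≠ y →
    (M x y = 6 ↔ decide (x = c ∨ x = c + b) = decide (y = c ∨ y = c + b)) := by
  decide +kernel

set_option synthInstance.maxSize 4000 in
theorem factP : (∀ x : V4, decide (x = c ∨ x = c + b) = true → x = c ∨ x = c + b) ∧
    (∀ x : V4, (x = c ∨ x = c + b ∨ x = d ∨ x = d + a) → decide (x = c ∨ x = c + b) = false →
      x = d ∨ x = d + a) ∧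
    (∀ x : V4, (x = d ∨ x = d + a) → decide (x = c ∨ x = c + b) = false) := by
  decide +kernel

set_option synthInstance.maxSize 4000 in
theorem factG : (∀ x : V4, x + b = x - c + (c + b)) ∧ (∀ x : V4, x + a = x - d + (d + a)) ∧
    (∀ x : V4, x - c + (c + b) = x + b) ∧ (∀ x : V4, x - d + (d + a) = x + a) ∧
    (∀ x : V4, (x = 0 ∨ x = a ∨ x = b ∨ x = a + b) → x = 0 ∨ x = a ∨ x = b ∨ x = a + b) ∧
    (∀ v : V4, v = (if v.1.1 = 0 then 0 else a) - 0 + ((if v.1.2 = 0 then 0 else b) - 0 +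
      ((if v.2.1 = 0 then 0 else c) - 0 + (if v.2.2 = 0 then 0 else d)))) ∧
    a = 0 - d + (d + a) ∧ b = 0 - c + (c + b) := by
  decide +kernel

lemma q8_pres {g : Perm V4} (hg : g ∈ ast c8) (x : V4) (hx : Q8 x) : Q8 (g x) := by
  obtain ⟨⟨Nc, Ncb, Nd, Nda, N0⟩, hN⟩ := factN
  obtain ⟨s0, sa, sb, sab, sc, scb, sd, sda⟩ := factS
  have h1 : c8 x = true := by
    rcases hx with rfl | rfl | rfl | rfl
    · exact sc
    · exact scb
    · exact sd
    · exact sda
  have h2 : N x = 34 := by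
    rcases hx with rfl | rfl | rfl | rfl
    · exact Nc
    · exact Ncb
    · exact Nd
    · exact Nda
  exact (hN (g x) (by rw [hg.2]; exact h1)).1 (by rw [N_inv g hg.1 hg.2, h2])

lemma rel_pres {g : Perm V4} (hg : g ∈ ast c8) (x y : V4) (hx : Q8 x) (hy : Q8 y) :
    t8 (g x) = t8 (g y) ↔ t8 x = t8 y := by
  by_cases hxy : x = y
  · subst hxy
    simp
  · have h1 := factT x y hx hy hxy
    have h2 := factT (g x) (g y) (q8_pres hg x hx) (q8_pres hg y hy) (fun h => hxy (g.injective h))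
    rw [M_inv g hg.1 hg.2] at h2
    exact h2.symm.trans h1

lemma fix4 {g : Perm V4} (hg : g ∈ ds (ast c8) 2) (x : V4) (hx : Q8 x) : g x = x := by
  have hsw := swp2 (ast c8) Q8 (fun g hg x hx => q8_pres hg x hx) t8
    (fun g hg x y hx hy => rel_pres hg x y hx hy)
  have hg' : g ∈ ds (ds (ast c8) 1) 1 := by
    rw [← ds_add]
    exact hg
  obtain ⟨f1, f2, f3⟩ := factP
  have n1 : Nat.card {x : V4 // x = c ∨ x = c + b} ≤ 2 := by
    rw [Nat.card_eq_fintype_card]
    decide +kernel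
  have n2 : Nat.card {x : V4 // x = d ∨ x = d + a} ≤ 2 := by
    rw [Nat.card_eq_fintype_card]
    decide +kernel
  have k1 : ∀ x : V4, (x = c ∨ x = c + b) → g x = x := by
    refine ds_fix (ds (ast c8) 1) (fun x => x = c ∨ x = c + b) ?_ 1 (perm_small.2.2 n1) g hg'
    intro h hh x hx
    have h1 : t8 (h x) = t8 x := hsw h hh x (by
      rcases hx with hx | hx
      · exact Or.inl hx
      · exact Or.inr (Or.inl hx))
    apply f1
    have h2 : t8 x = true := by
      unfold t8
      exact decide_eq_true hx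
    rw [h2] at h1
    exact h1
  have k2 : ∀ x : V4, (x = d ∨ x = d + a) → g x = x := by
    refine ds_fix (ds (ast c8) 1) (fun x => x = d ∨ x = d + a) ?_ 1 (perm_small.2.2 n2) g hg'
    intro h hh x hx
    have hQ : Q8 x := by
      rcases hx with hx | hx
      · exact Or.inr (Or.inr (Or.inl hx))
      · exact Or.inr (Or.inr (Or.inr hx))
    have h1 : t8 (h x) = t8 x := hsw h hh x hQ
    have h2 : t8 x = false := f3 x hx
    rw [h2] at h1
    exact f2 (h x) (q8_pres (ds_le (ast c8) 1 hh) x hQ) h1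
  rcases hx with hx | hx | hx | hx
  · exact k1 x (Or.inl hx)
  · exact k1 x (Or.inr hx)
  · exact k2 x (Or.inl hx)
  · exact k2 x (Or.inr hx)

lemma transl {g : Perm V4} (hg : g ∈ ds (ast c8) 2) (x e : V4)
    (he : e = 0 ∨ e = a ∨ e = b ∨ e = a + b) : g (x + e) = g x + e := by
  obtain ⟨g1, g2, g3, g4, -⟩ := factG
  have hA : Aff g := (ds_le (ast c8) 2 hg).1
  have hc := fix4 hg c (Or.inl rfl)
  have hcb := fix4 hg (c + b) (Or.inr (Or.inl rfl))
  have hd := fix4 hg d (Or.inr (Or.inr (Or.inl rfl)))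
  have hda := fix4 hg (d + a) (Or.inr (Or.inr (Or.inr rfl)))
  have hb : ∀ x, g (x + b) = g x + b := by
    intro x
    rw [g1 x, hA, hc, hcb, g3]
  have ha : ∀ x, g (x + a) = g x + a := by
    intro x
    rw [g2 x, hA, hd, hda, g4]
  rcases he with rfl | rfl | rfl | rfl
  · rw [add_zero, add_zero]
  · exact ha x
  · exact hb x
  · rw [← add_assoc, hb, ha, add_assoc]

lemma zero_plane {g : Perm V4} (hg : g ∈ ast c8) : g 0 = 0 ∨ g 0 = a ∨ g 0 = b ∨ g 0 = a + b := by
  obtain ⟨⟨Nc, Ncb, Nd, Nda, N0⟩, hN⟩ := factN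
  obtain ⟨s0, -⟩ := factS
  exact (hN (g 0) (by rw [hg.2]; exact s0)).2 (by rw [N_inv g hg.1 hg.2, N0])

/-- Job d8. -/
theorem d8 : S_d8 := by
  have h2 : ∀ f ∈ ds (ast c8) 2, ∀ g ∈ ds (ast c8) 2, f * g = g * f := by
    intro f hf g hg
    have hfA := (ds_le (ast c8) 2 hf).1
    have hgA := (ds_le (ast c8) 2 hg).1
    have h3 := aff_ext (f * g : Perm V4) (g * f : Perm V4) {x | x = 0 ∨ Q8 x} (hfA.mul hgA)
      (hgA.mul hfA) (by
        intro U hU hs v
        obtain ⟨-, -, -, -, -, g6, g7, g8⟩ := factG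
        have h0 : (0 : V4) ∈ U := hs (Or.inl rfl)
        have hc : c ∈ U := hs (Or.inr (Or.inl rfl))
        have hcb : c + b ∈ U := hs (Or.inr (Or.inr (Or.inl rfl)))
        have hd : d ∈ U := hs (Or.inr (Or.inr (Or.inr (Or.inl rfl))))
        have hda : d + a ∈ U := hs (Or.inr (Or.inr (Or.inr (Or.inr rfl))))
        have ha : a ∈ U := by rw [g7]; exact hU _ h0 _ hd _ hda
        have hb : b ∈ U := by rw [g8]; exact hU _ h0 _ hc _ hcb
        have hite : ∀ (p : Prop) [Decidable p] (w : V4), w ∈ U → (if p then 0 else w) ∈ U := by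
          intro p _ w hw
          split_ifs
          · exact h0
          · exact hw
        rw [g6 v]
        exact hU _ (hite _ _ ha) _ h0 _ (hU _ (hite _ _ hb) _ h0 _ (hU _ (hite _ _ hc) _ h0 _
          (hite _ _ hd)))) (by
        rintro x (rfl | hx)
        · show f (g 0) = g (f 0)
          have e1 := transl hf 0 (g 0) (zero_plane (ds_le (ast c8) 2 hg))
          have e2 := transl hg 0 (f 0) (zero_plane (ds_le (ast c8) 2 hf))
          rw [zero_add] at e1 e2
          rw [e1, e2, add_comm]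
        · show f (g x) = g (f x)
          rw [fix4 hg x hx, fix4 hf x hx, fix4 hg x hx])
    exact DFunLike.coe_injective h3
  have h3 := ds_comm h2
  rw [← ds_add] at h3
  exact h3

/-! ### `c6` -/

set_option maxRecDepth 100000 in
set_option synthInstance.maxSize 4000 in
theorem fact6 : (∀ x : V4, x.2 = 0 → c6 x = true ∧ cnt c6 x = cnt c6 0) ∧
    (∀ x : V4, c6 x = true → cnt c6 x = cnt c6 0 → x.2 = 0) ∧
    (∀ x : V4, (x = (0, (1, 0)) ∨ x = (0, (0, 1))) → c6 x = true ∧ cnt c6 x = cnt c6 (0, (1, 0))) ∧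
    (∀ x : V4, c6 x = true → cnt c6 x = cnt c6 (0, (1, 0)) → x = (0, (1, 0)) ∨ x = (0, (0, 1))) := by
  decide +kernel

set_option synthInstance.maxSize 4000 in
theorem fact6s : ∀ v : V4, v = (v.1, 0) - 0 + ((if v.2.1 = 0 then 0 else (0, (1, 0))) - 0 +
    (if v.2.2 = 0 then 0 else (0, (0, 1)))) := by
  decide +kernel

/-- Job d6. -/
theorem d6 : S_d6 := by
  constructor
  · obtain ⟨p1, p2, p3, p4⟩ := fact6
    have hP1 : ∀ g ∈ ast c6, ∀ x : V4, x.2 = 0 → (g x).2 = 0 := by
      intro g hg x hx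
      apply p2 (g x)
      · rw [hg.2]; exact (p1 x hx).1
      · rw [cnt_inv c6 hg.1 hg.2]; exact (p1 x hx).2
    have hP2 : ∀ g ∈ ast c6, ∀ x : V4, (x = (0, (1, 0)) ∨ x = (0, (0, 1))) →
        (g x = (0, (1, 0)) ∨ g x = (0, (0, 1))) := by
      intro g hg x hx
      apply p4 (g x)
      · rw [hg.2]; exact (p3 x hx).1
      · rw [cnt_inv c6 hg.1 hg.2]; exact (p3 x hx).2
    have n1 : Nat.card {x : V4 // x.2 = 0} ≤ 4 := by
      rw [Nat.card_eq_fintype_card]
      decide +kernel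
    have n2 : Nat.card {x : V4 // x = (0, (1, 0)) ∨ x = (0, (0, 1))} ≤ 4 := by
      rw [Nat.card_eq_fintype_card]
      decide +kernel
    rw [eq_bot_iff]
    intro g hg
    rw [Subgroup.mem_bot]
    have k1 := ds_fix (ast c6) (fun x : V4 => x.2 = 0) hP1 3 (perm_small.1 n1) g hg
    have k2 := ds_fix (ast c6) (fun x : V4 => x = (0, (1, 0)) ∨ x = (0, (0, 1))) hP2 3
      (perm_small.1 n2) g hg
    have h3 := aff_ext g (1 : Perm V4) {x | x.2 = 0 ∨ (x = (0, (1, 0)) ∨ x = (0, (0, 1)))}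
      (ds_le (ast c6) 3 hg).1 (fun _ _ _ => rfl) (by
        intro U hU hs v
        have h0 : (0 : V4) ∈ U := hs (Or.inl rfl)
        have hv : ((v.1, 0) : V4) ∈ U := hs (Or.inl rfl)
        have hc : ((0, (1, 0)) : V4) ∈ U := hs (Or.inr (Or.inl rfl))
        have hd : ((0, (0, 1)) : V4) ∈ U := hs (Or.inr (Or.inr rfl))
        have hite : ∀ (p : Prop) [Decidable p] (w : V4), w ∈ U → (if p then 0 else w) ∈ U := by
          intro p _ w hw
          split_ifs
          · exact h0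
          · exact hw
        rw [fact6s v]
        exact hU _ hv _ h0 _ (hU _ (hite _ _ hc) _ h0 _ (hite _ _ hd))) (by
        rintro x (hx | hx)
        · exact k1 x hx
        · exact k2 x hx)
    exact DFunLike.coe_injective h3
  · show Nat.card {x : V4 // c6 x = true} = 6
    rw [Nat.card_eq_fintype_card]
    decide +kernel

end Pool.Agent.Q154.DD
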